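import Pool.Agent.H546R2.SL.A4
import Mathlib.LinearAlgebra.TensorProduct.Submodule

set_option autoImplicit false
set_option linter.unusedSectionVars false

open Module MvPolynomial Finset

namespace Pool.Agent.H546R2.AB

open Pool.Agent.H546R2.SL

variable {ι : Type*} {K : Type*} [Field K]

/-- sum of the homogeneous components of degree at most `t` -/
noncomputable def trunc (ι K : Type*) [Field K] (t : ℕ) : MvPolynomial ι K →ₗ[K] MvPolynomial ι K :=
  ∑ d ∈ Finset.range (t + 1), homogeneousComponent d

lemma trunc_apply (t : ℕ) (p : MvPolynomial ι K) :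
    trunc ι K t p = ∑ d ∈ Finset.range (t + 1), homogeneousComponent d p := by
  unfold trunc
  rw [LinearMap.sum_apply]

lemma coeff_trunc (t : ℕ) (p : MvPolynomial ι K) (m : ι →₀ ℕ) :
    coeff m (trunc ι K t p) = if m.degree ≤ t then coeff m p else 0 := by
  classical
  rw [trunc_apply, coeff_sum]
  simp_rw [coeff_homogeneousComponent]
  rw [Finset.sum_ite_eq (Finset.range (t + 1)) m.degree]
  by_cases h : m.degree ≤ t
  · rw [if_pos (Finset.mem_range.mpr (by omega)), if_pos h]
  · rw [if_neg (fun hh => h (by rw [Finset.mem_range] at hh; omega)), if_neg h]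

lemma trunc_of_mem (t : ℕ) (p : MvPolynomial ι K) (hp : p ∈ restrictTotalDegree ι K t) :
    trunc ι K t p = p := by
  rw [mem_restrictTotalDegree] at hp
  ext m
  rw [coeff_trunc]
  by_cases h : m.degree ≤ t
  · rw [if_pos h]
  · rw [if_neg h]
    symm
    by_contra hcon
    apply h
    have := le_totalDegree (MvPolynomial.mem_support_iff.mpr hcon)
    exact this.trans hp

lemma finrank_mul_le' (A B : Submodule K (MvPolynomial ι K)) [FiniteDimensional K A]
    [FiniteDimensional K B] : finrank K ↥(A * B) ≤ finrank K A * finrank K B := by
  have h := Submodule.mulMap_range A B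
  rw [← h, ← Module.finrank_tensorProduct (R := K) (S := K) (M := A) (M' := B)]
  exact LinearMap.finrank_range_le _

/-- elements of the `j`-th power of an ideal of polynomials without constant term have no
coefficients of degree less than `j` -/
lemma coeff_pow_ideal (I : Ideal (MvPolynomial ι K)) (hI : ∀ p ∈ I, coeff 0 p = 0) (j : ℕ) :
    ∀ p ∈ I ^ j, ∀ m : ι →₀ ℕ, m.degree < j → coeff m p = 0 := by
  classical
  induction j with
  | zero => intro p _ m hm; exact absurd hm (Nat.not_lt_zero _)
  | succ j ih =>
    intro p hp
    rw [pow_succ] at hp
    refine Submodule.mul_induction_on hp ?_ ?_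
    · intro a ha b hb m hm
      rw [coeff_mul]
      apply Finset.sum_eq_zero
      rintro ⟨x, y⟩ hxy
      rw [Finset.HasAntidiagonal.mem_antidiagonal] at hxy
      simp only at hxy ⊢
      by_cases hy : y = 0
      · rw [hy, hI b hb, mul_zero]
      · rw [ih a ha x, zero_mul]
        have h1 : x.degree + y.degree = m.degree := by
          rw [← hxy, map_add]
        have h2 : 0 < y.degree := by
          rw [pos_iff_ne_zero]
          intro h0
          exact hy ((Finsupp.degree_eq_zero_iff y).mp h0)
        omega
    · intro a b ha hb m hm
      rw [coeff_add, ha m hm, hb m hm, add_zero]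

/-- **dimension bound**: if the forms `y v` of degree `e` have only the trivial common zero and
`s` polynomials without constant term generate an ideal containing, for every `v`, an element which
agrees with `y v` up to terms of degree less than `e`, then there are at most `s` variables -/
theorem strength [IsAlgClosed K] [Fintype ι] {V : Type*} (y : V → MvPolynomial ι K) (e : ℕ)
    (he : 0 < e) (hy : ∀ v, (y v).IsHomogeneous e)
    (hz : ∀ x : ι → K, (∀ v, eval x (y v) = 0) → x = 0) {τ : Type*} [Fintype τ]
    (p : τ → MvPolynomial ι K) (hp : ∀ j, coeff 0 (p j) = 0) (u : V → MvPolynomial ι K)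
    (hu : ∀ v, u v ∈ Ideal.span (Set.range p)) (huy : ∀ v, (u v - y v).totalDegree < e) :
    Fintype.card ι ≤ Fintype.card τ := by
  classical
  obtain ⟨M, hM⟩ := exists_degree_bound y hz
  set I := Ideal.span (Set.range p) with hI
  have hI0 : ∀ f ∈ I, coeff 0 f = 0 := by
    intro f hf
    rw [hI] at hf
    induction hf using Submodule.span_induction with
    | mem f hf => obtain ⟨j, rfl⟩ := hf; exact hp j
    | zero => exact coeff_zero _
    | add f g _ _ hf hg => rw [coeff_add, hf, hg, add_zero]
    | smul a f _ hf =>
      rw [smul_eq_mul, coeff_mul]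
      apply Finset.sum_eq_zero
      rintro ⟨x, z⟩ hxz
      rw [Finset.HasAntidiagonal.mem_antidiagonal] at hxz
      simp only at hxz ⊢
      have hz0 : z = 0 := by
        have := congrArg Finsupp.degree hxz
        rw [map_add, map_zero] at this
        exact (Finsupp.degree_eq_zero_iff z).mp (by omega)
      rw [hz0, hf, mul_zero]
  set F := restrictTotalDegree ι K (M + e) with hF
  -- every polynomial is in `F + I`
  have h1 : ∀ d : ℕ, ∀ f : MvPolynomial ι K, f.totalDegree ≤ d →
      f ∈ F ⊔ I.restrictScalars K := by
    intro d
    induction d using Nat.strong_induction_on with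
    | _ d ih =>
      intro f hf
      by_cases hd : d ≤ M + e
      · apply Submodule.mem_sup_left
        rw [hF, mem_restrictTotalDegree]
        omega
      · push Not at hd
        obtain ⟨c, hc, hfc⟩ := homog_repr y e hy d (by omega) _
          (homogeneousComponent_isHomogeneous d f)
          (hM d (by omega) _ (homogeneousComponent_isHomogeneous d f))
        have hsplit : f = (c.sum fun v a => a * u v) +
            ((f - homogeneousComponent d f) + c.sum fun v a => a * (y v - u v)) := by
          rw [hfc]
          have : (c.sum fun v a => a * y v) = (c.sum fun v a => a * u v) +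
              c.sum fun v a => a * (y v - u v) := by
            rw [Finsupp.sum, Finsupp.sum, Finsupp.sum, ← Finset.sum_add_distrib]
            apply Finset.sum_congr rfl
            intro v _
            ring
          rw [this]
          ring
        rw [hsplit]
        apply Submodule.add_mem
        · apply Submodule.mem_sup_right
          change _ ∈ I
          apply Ideal.sum_mem
          intro v _
          exact I.mul_mem_left _ (hu v)
        · apply ih (d - 1) (by omega)
          refine (totalDegree_add _ _).trans (max_le ?_ ?_)
          · rw [totalDegree, Finset.sup_le_iff]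
            intro m hm
            rw [MvPolynomial.mem_support_iff, coeff_sub, coeff_homogeneousComponent] at hm
            have hmd : m.degree ≠ d := by
              intro hcon
              rw [if_pos hcon, sub_self] at hm
              exact hm rfl
            rw [if_neg hmd, sub_zero] at hm
            have h5 := le_totalDegree (MvPolynomial.mem_support_iff.mpr hm)
            have h6 : (m.sum fun _ e => e) = m.degree := rfl
            rw [h6] at h5 ⊢
            omega
          · apply totalDegree_finsetSum_le
            intro v _
            refine (totalDegree_mul _ _).trans ?_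
            have h7 := (hc v).totalDegree_le
            have h8 : (y v - u v).totalDegree < e := by
              have : y v - u v = -(u v - y v) := by ring
              rw [this, totalDegree_neg]
              exact huy v
            omega
  set G : Submodule K (MvPolynomial ι K) := Submodule.span K (insert 1 (Set.range p)) with hG
  have h1G : (1 : MvPolynomial ι K) ∈ G := Submodule.subset_span (Set.mem_insert _ _)
  -- powers of the ideal
  have h2 : ∀ j : ℕ, ∀ f ∈ I ^ j, f ∈ G ^ j * F ⊔ (I ^ (j + 1)).restrictScalars K := by
    intro j
    induction j with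
    | zero =>
      intro f _
      rw [pow_zero, one_mul, zero_add, pow_one]
      exact h1 _ f le_rfl
    | succ j ih =>
      have hmulp : ∀ (i : τ) (f : MvPolynomial ι K), f ∈ G ^ j * F ⊔ (I ^ (j + 1)).restrictScalars K →
          p i * f ∈ G ^ (j + 1) * F ⊔ (I ^ (j + 1 + 1)).restrictScalars K := by
        intro i f hf
        obtain ⟨a, ha, b, hb, rfl⟩ := Submodule.mem_sup.mp hf
        rw [mul_add]
        apply Submodule.add_mem
        · apply Submodule.mem_sup_left
          rw [pow_succ', mul_assoc]
          apply Submodule.mul_mem_mul _ ha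
          exact Submodule.subset_span (Set.mem_insert_of_mem _ ⟨i, rfl⟩)
        · apply Submodule.mem_sup_right
          change p i * b ∈ I ^ (j + 1 + 1)
          rw [pow_succ' I (j + 1)]
          exact Ideal.mul_mem_mul (Ideal.subset_span ⟨i, rfl⟩) hb
      intro f hf
      rw [pow_succ'] at hf
      refine Submodule.mul_induction_on hf ?_ ?_
      · intro a ha b hb
        rw [hI] at ha
        clear hI0
        induction ha using Submodule.span_induction generalizing b with
        | mem a ha =>
          obtain ⟨i, rfl⟩ := ha
          exact hmulp i b (ih b hb)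
        | zero => rw [zero_mul]; exact Submodule.zero_mem _
        | add a a' _ _ iha iha' =>
          rw [add_mul]
          exact Submodule.add_mem _ (iha b hb) (iha' b hb)
        | smul r a _ iha =>
          rw [smul_eq_mul, mul_comm r a, mul_assoc]
          exact iha (r * b) (Ideal.mul_mem_left _ _ hb)
      · intro a b ha hb
        exact Submodule.add_mem _ ha hb
  have h3 : ∀ j : ℕ, ∀ f : MvPolynomial ι K,
      f ∈ G ^ j * F ⊔ (I ^ (j + 1)).restrictScalars K := by
    intro j
    induction j with
    | zero =>
      intro f
      rw [pow_zero, one_mul, zero_add, pow_one]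
      exact h1 _ f le_rfl
    | succ j ih =>
      intro f
      obtain ⟨a, ha, b, hb, rfl⟩ := Submodule.mem_sup.mp (ih f)
      apply Submodule.add_mem
      · apply Submodule.mem_sup_left
        rw [pow_succ', mul_assoc]
        have := Submodule.mul_mem_mul h1G ha
        rwa [one_mul] at this
      · exact h2 (j + 1) b hb
  -- dimension count
  have hFfin : FiniteDimensional K F := by rw [hF]; infer_instance
  have hFfg : F.FG := Module.Finite.iff_fg.mp hFfin
  have hGpow : ∀ t : ℕ, G ^ t ≤ (restrictTotalDegree τ K t).map (aeval p).toLinearMap := by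
    intro t
    have hG1 : G ≤ (restrictTotalDegree τ K 1).map (aeval p).toLinearMap := by
      rw [hG, Submodule.span_le]
      rintro f (rfl | ⟨i, rfl⟩)
      · exact ⟨1, by
          rw [SetLike.mem_coe, mem_restrictTotalDegree]; simp, by simp⟩
      · exact ⟨X i, by
          rw [SetLike.mem_coe, mem_restrictTotalDegree]
          exact (isHomogeneous_X K i).totalDegree_le, by simp⟩
    calc G ^ t ≤ ((restrictTotalDegree τ K 1).map (aeval p).toLinearMap) ^ t :=
          pow_le_pow_left' hG1 t
      _ = ((restrictTotalDegree τ K 1) ^ t).map (aeval p).toLinearMap :=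
          (Submodule.map_pow (restrictTotalDegree τ K 1) (aeval p) t).symm
      _ ≤ _ := Submodule.map_mono (pow_restrict_le t)
  have h4 : ∀ t : ℕ, Nm ι t ≤ Nm τ t * finrank K F := by
    intro t
    have hGfg : (G ^ t).FG := by
      apply Submodule.FG.pow
      rw [hG]
      exact Submodule.fg_span (Set.Finite.insert _ (Set.finite_range p))
    have hle : restrictTotalDegree ι K t ≤ (G ^ t * F).map (trunc ι K t) := by
      intro f hf
      obtain ⟨a, ha, b, hb, hab⟩ := Submodule.mem_sup.mp (h3 t f)
      refine ⟨a, ha, ?_⟩
      have h5 : trunc ι K t b = 0 := by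
        ext m
        rw [coeff_trunc, coeff_zero]
        by_cases hm : m.degree ≤ t
        · rw [if_pos hm]
          exact coeff_pow_ideal I hI0 (t + 1) b hb m (by omega)
        · rw [if_neg hm]
      have h6 := trunc_of_mem t f hf
      rw [← hab, map_add, h5, add_zero] at h6
      rw [h6, hab]
    have hfgGF : (G ^ t * F).FG := hGfg.mul hFfg
    have hfd : FiniteDimensional K ↥(G ^ t * F) := Module.Finite.iff_fg.mpr hfgGF
    have hfd2 : FiniteDimensional K ↥((G ^ t * F).map (trunc ι K t)) :=
      Module.Finite.iff_fg.mpr (hfgGF.map _)
    have hfdG : FiniteDimensional K ↥(G ^ t) := Module.Finite.iff_fg.mpr hGfg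
    have hfdr : FiniteDimensional K ↥(restrictTotalDegree τ K t) := inferInstance
    calc Nm ι t = finrank K ↥(restrictTotalDegree ι K t) := (finrank_restrict t).symm
      _ ≤ finrank K ↥((G ^ t * F).map (trunc ι K t)) := Submodule.finrank_mono hle
      _ ≤ finrank K ↥(G ^ t * F) := Submodule.finrank_map_le _ _
      _ ≤ finrank K ↥(G ^ t) * finrank K F := by
          exact finrank_mul_le' _ _
      _ ≤ Nm τ t * finrank K F := by
          apply Nat.mul_le_mul_right
          have hfd3 : FiniteDimensional K
              ↥((restrictTotalDegree τ K t).map (aeval (R := K) p).toLinearMap) :=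
            Module.Finite.iff_fg.mpr ((Module.Finite.iff_fg.mp hfdr).map _)
          calc finrank K ↥(G ^ t) ≤ finrank K
                ↥((restrictTotalDegree τ K t).map (aeval (R := K) p).toLinearMap) :=
                Submodule.finrank_mono (hGpow t)
            _ ≤ finrank K ↥(restrictTotalDegree τ K t) := Submodule.finrank_map_le _ _
            _ = Nm τ t := finrank_restrict t
  -- growth
  by_contra hcon
  push Not at hcon
  set D := Fintype.card ι with hD
  set s := Fintype.card τ with hs
  set δ := finrank K F with hδ
  have h5 : ∀ n : ℕ, n ^ D ≤ (n * D + 1) ^ s * δ := by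
    intro n
    rcases Nat.eq_zero_or_pos n with hn | hn
    · rw [hn, zero_pow (by omega)]; exact Nat.zero_le _
    · calc n ^ D = n ^ D * 1 := (mul_one _).symm
        _ ≤ n ^ D * Nm ι 0 := Nat.mul_le_mul_left _ (Nm_pos 0)
        _ ≤ Nm ι (n * (0 + D)) := Nm_scale n 0 hn
        _ = Nm ι (n * D) := by rw [zero_add]
        _ ≤ Nm τ (n * D) * δ := h4 _
        _ ≤ (n * D + 1) ^ s * δ := Nat.mul_le_mul_right _ (Nm_le _)
  set n := (D + 1) ^ s * δ + 1 with hn
  have hn1 : 1 ≤ n := by omega
  have h6 : n ^ (s + 1) ≤ n ^ s * ((D + 1) ^ s * δ) := by
    calc n ^ (s + 1) ≤ n ^ D := Nat.pow_le_pow_right hn1 (by omega)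
      _ ≤ (n * D + 1) ^ s * δ := h5 n
      _ ≤ (n * (D + 1)) ^ s * δ := by
          apply Nat.mul_le_mul_right
          apply Nat.pow_le_pow_left
          rw [mul_add, mul_one]; omega
      _ = n ^ s * ((D + 1) ^ s * δ) := by rw [mul_pow]; ring
  rw [pow_succ] at h6
  have h7 := Nat.le_of_mul_le_mul_left h6 (Nat.pow_pos hn1)
  omega

end Pool.Agent.H546R2.AB
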