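import Mathlib.Algebra.MvPolynomial.CommRing
import Mathlib.Algebra.BigOperators.Fin
import Mathlib.Algebra.Order.BigOperators.Group.Finset

set_option autoImplicit false
set_option linter.unusedSectionVars false

open MvPolynomial Finset

namespace Pool.Agent.H546R2.AB

variable {σ : Type*} {K : Type*} [Field K]

/-- the sum, over all paths from the vertex `v` of layer `i` through the next `n` layers, of the
product of the labels -/
noncomputable def suf (w : ℕ → ℕ) (A : (i : ℕ) → Fin (w i) → Fin (w (i + 1)) → MvPolynomial σ K) :
    ℕ → (i : ℕ) → Fin (w i) → MvPolynomial σ K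
  | 0, _, _ => 1
  | n + 1, i, v => ∑ u : Fin (w (i + 1)), A i v u * suf w A n (i + 1) u

/-- decomposition into `r` products of polynomials vanishing at `b` and a rest of degree `≤ e` -/
def Dec (b : σ → K) (e r : ℕ) (f : MvPolynomial σ K) : Prop :=
  ∃ P Q : Fin r → MvPolynomial σ K, (∀ j, eval b (P j) = 0) ∧ (∀ j, eval b (Q j) = 0) ∧
    ∃ R : MvPolynomial σ K, R.totalDegree ≤ e ∧ f = ∑ j, P j * Q j + R

lemma Dec.of_deg {b : σ → K} {e : ℕ} {f : MvPolynomial σ K} (hf : f.totalDegree ≤ e) :
    Dec b e 0 f :=
  ⟨fun _ => 0, fun _ => 0, fun _ => map_zero _, fun _ => map_zero _, f, hf, by simp⟩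

lemma Dec.add {b : σ → K} {e r r' : ℕ} {f f' : MvPolynomial σ K} (h : Dec b e r f)
    (h' : Dec b e r' f') : Dec b e (r + r') (f + f') := by
  obtain ⟨P, Q, hP, hQ, R, hR, rfl⟩ := h
  obtain ⟨P', Q', hP', hQ', R', hR', rfl⟩ := h'
  refine ⟨Fin.append P P', Fin.append Q Q', ?_, ?_, R + R',
    (totalDegree_add _ _).trans (max_le hR hR'), ?_⟩
  · intro j
    refine Fin.addCases (fun i => ?_) (fun i => ?_) j
    · rw [Fin.append_left]; exact hP i
    · rw [Fin.append_right]; exact hP' i
  · intro j
    refine Fin.addCases (fun i => ?_) (fun i => ?_) j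
    · rw [Fin.append_left]; exact hQ i
    · rw [Fin.append_right]; exact hQ' i
  · rw [Fin.sum_univ_add]
    simp only [Fin.append_left, Fin.append_right]
    ring

lemma Dec.cut {b : σ → K} {e w : ℕ} (g h : Fin w → MvPolynomial σ K) :
    Dec b e w (∑ v, (g v - C (eval b (g v))) * (h v - C (eval b (h v)))) :=
  ⟨fun v => g v - C (eval b (g v)), fun v => h v - C (eval b (h v)),
    fun j => by simp, fun j => by simp, 0, by simp, by rw [add_zero]⟩

/-- number of vertices in the cut layers strictly between `i` and `i + n` -/
def cost (w : ℕ → ℕ) (a e : ℕ) : ℕ → ℕ → ℕ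
  | 0, _ => 0
  | n + 1, i => (if n = 0 then 0 else if (i + 1 + a) % e = 0 then w (i + 1) else 0) +
      cost w a e n (i + 1)

lemma dec_suf (w : ℕ → ℕ) (A : (i : ℕ) → Fin (w i) → Fin (w (i + 1)) → MvPolynomial σ K)
    (hA : ∀ i u v, (A i u v).totalDegree ≤ 1) (b : σ → K) (a e : ℕ) (he : 0 < e) :
    ∀ (n i : ℕ) (g : Fin (w i) → MvPolynomial σ K),
      (∀ v, (g v).totalDegree ≤ (i + a) % e) →
      Dec b e (cost w a e n i) (∑ v, g v * suf w A n i v) := by
  intro n
  induction n with
  | zero =>
    intro i g hg
    apply Dec.of_deg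
    apply totalDegree_finsetSum_le
    intro v _
    unfold suf
    rw [mul_one]
    exact (hg v).trans (Nat.mod_lt _ he).le
  | succ n ih =>
    intro i g hg
    -- one step
    set g' : Fin (w (i + 1)) → MvPolynomial σ K := fun u => ∑ v, g v * A i v u with hg'
    have hstep : ∑ v, g v * suf w A (n + 1) i v = ∑ u, g' u * suf w A n (i + 1) u := by
      have h1 : ∀ v, g v * suf w A (n + 1) i v =
          ∑ u, g v * A i v u * suf w A n (i + 1) u := by
        intro v
        conv_lhs => unfold suf
        rw [Finset.mul_sum]
        apply Finset.sum_congr rfl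
        intro u _
        ring
      simp_rw [h1]
      rw [Finset.sum_comm]
      apply Finset.sum_congr rfl
      intro u _
      rw [hg', Finset.sum_mul]
    have hdeg : ∀ u, (g' u).totalDegree ≤ (i + a) % e + 1 := by
      intro u
      apply totalDegree_finsetSum_le
      intro v _
      refine (totalDegree_mul _ _).trans ?_
      exact Nat.add_le_add (hg v) (hA i v u)
    have hmod := Nat.mod_lt (i + a) he
    rw [hstep]
    rcases Nat.eq_zero_or_pos n with hn | hn
    · subst hn
      have hc : cost w a e (0 + 1) i = 0 := by
        simp [cost]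
      rw [hc]
      apply Dec.of_deg
      apply totalDegree_finsetSum_le
      intro u _
      unfold suf
      rw [mul_one]
      have := hdeg u
      omega
    · have hc : cost w a e (n + 1) i =
          (if (i + 1 + a) % e = 0 then w (i + 1) else 0) + cost w a e n (i + 1) := by
        conv_lhs => unfold cost
        rw [if_neg (by omega)]
      rw [hc]
      by_cases hcut : (i + 1 + a) % e = 0
      · rw [if_pos hcut]
        set h := suf w A n (i + 1) with hh
        have hsplit : ∑ u, g' u * h u =
            (∑ u, (g' u - C (eval b (g' u))) * (h u - C (eval b (h u)))) +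
            ((∑ u, C (eval b (g' u)) * h u) +
              ∑ u, (g' u - C (eval b (g' u))) * C (eval b (h u))) := by
          rw [← Finset.sum_add_distrib, ← Finset.sum_add_distrib]
          apply Finset.sum_congr rfl
          intro u _
          ring
        rw [hsplit]
        apply Dec.add (Dec.cut g' h)
        have h1 := ih (i + 1) (fun u => C (eval b (g' u))) (by
          intro u; rw [totalDegree_C]; exact Nat.zero_le _)
        have h2 : Dec b e 0 (∑ u, (g' u - C (eval b (g' u))) * C (eval b (h u))) := by
          apply Dec.of_deg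
          apply totalDegree_finsetSum_le
          intro u _
          refine (totalDegree_mul _ _).trans ?_
          rw [totalDegree_C, add_zero]
          refine (totalDegree_sub_C_le _ _).trans ?_
          have := hdeg u
          omega
        exact Dec.add h1 h2
      · rw [if_neg hcut, zero_add]
        apply ih
        intro u
        refine (hdeg u).trans ?_
        have h3 : (i + 1 + a) % e = (i + a) % e + 1 := by
          have h4 : i + 1 + a = (i + a) + 1 := by ring
          rw [h4, Nat.add_mod] at hcut
          rw [h4, Nat.add_mod]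
          rcases Nat.lt_or_ge 1 e with h1 | h1
          · rw [Nat.mod_eq_of_lt h1] at hcut ⊢
            rcases Nat.lt_or_ge ((i + a) % e + 1) e with h5 | h5
            · rw [Nat.mod_eq_of_lt h5]
            · exfalso
              apply hcut
              have h6 : (i + a) % e + 1 = e := by omega
              rw [h6, Nat.mod_self]
          · exfalso
            apply hcut
            have : e = 1 := by omega
            rw [this, Nat.mod_one]
        omega

/-- the sum over the residues -/
lemma sum_cost (w : ℕ → ℕ) (e : ℕ) (he : 0 < e) : ∀ (n i : ℕ),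
    ∑ a ∈ Finset.range e, cost w a e n i = ∑ j ∈ Finset.Ico (i + 1) (i + n), w j := by
  intro n
  induction n with
  | zero => intro i; simp [cost]
  | succ n ih =>
    intro i
    have h0 : ∀ a, cost w a e (n + 1) i =
        (if n = 0 then 0 else if (i + 1 + a) % e = 0 then w (i + 1) else 0) +
          cost w a e n (i + 1) := by
      intro a
      conv_lhs => unfold cost
    simp_rw [h0]
    rw [Finset.sum_add_distrib, ih]
    rcases Nat.eq_zero_or_pos n with hn | hn
    · subst hn; simp
    · have h1 : ∑ a ∈ Finset.range e,
          (if n = 0 then 0 else if (i + 1 + a) % e = 0 then w (i + 1) else 0) = w (i + 1) := by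
        have hn0 : n ≠ 0 := by omega
        simp only [if_neg hn0]
        rw [Finset.sum_eq_single ((e - (i + 1) % e) % e)]
        · rw [if_pos]
          have h2 := Nat.mod_lt (i + 1) he
          rw [Nat.add_mod, Nat.mod_mod]
          rcases Nat.eq_zero_or_pos ((i + 1) % e) with h3 | h3
          · rw [h3, Nat.sub_zero, Nat.mod_self, Nat.add_zero, Nat.zero_mod]
          · rw [Nat.mod_eq_of_lt (show e - (i + 1) % e < e by omega)]
            have : (i + 1) % e + (e - (i + 1) % e) = e := by omega
            rw [this, Nat.mod_self]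
        · intro a ha hne
          rw [Finset.mem_range] at ha
          rw [if_neg]
          intro h3
          apply hne
          have h2 := Nat.mod_lt (i + 1) he
          rw [Nat.add_mod, Nat.mod_eq_of_lt ha] at h3
          rcases Nat.eq_zero_or_pos ((i + 1) % e) with h4 | h4
          · rw [h4, Nat.zero_add, Nat.mod_eq_of_lt ha] at h3
            rw [h4, Nat.sub_zero, Nat.mod_self, h3]
          · rw [Nat.mod_eq_of_lt (show e - (i + 1) % e < e by omega)]
            rcases Nat.lt_or_ge ((i + 1) % e + a) e with h5 | h5
            · rw [Nat.mod_eq_of_lt h5] at h3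
              omega
            · have h6 : (i + 1) % e + a = e + ((i + 1) % e + a - e) := by omega
              rw [h6, Nat.add_mod_left, Nat.mod_eq_of_lt (by omega)] at h3
              omega
        · intro h3
          exfalso
          apply h3
          rw [Finset.mem_range]
          exact Nat.mod_lt _ he
      rw [h1]
      have h2 : Finset.Ico (i + 1) (i + (n + 1)) = insert (i + 1) (Finset.Ico (i + 1 + 1) (i + 1 + n)) := by
        ext j
        simp only [Finset.mem_Ico, Finset.mem_insert]
        omega
      rw [h2, Finset.sum_insert (by simp)]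

/-- **cutting a layered program** -/
theorem exists_dec (w : ℕ → ℕ) (A : (i : ℕ) → Fin (w i) → Fin (w (i + 1)) → MvPolynomial σ K)
    (hA : ∀ i u v, (A i u v).totalDegree ≤ 1) (b : σ → K) (e : ℕ) (he : 0 < e) (L : ℕ) :
    ∃ r : ℕ, e * r ≤ ∑ j ∈ Finset.Ico 1 L, w j ∧ Dec b e r (∑ v, suf w A L 0 v) := by
  have h1 : ∃ a ∈ Finset.range e, e * cost w a e L 0 ≤ ∑ j ∈ Finset.Ico 1 L, w j := by
    by_contra hcon
    push Not at hcon
    have h2 : ∑ a ∈ Finset.range e, ∑ j ∈ Finset.Ico 1 L, w j <
        ∑ a ∈ Finset.range e, e * cost w a e L 0 :=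
      Finset.sum_lt_sum_of_nonempty ⟨0, Finset.mem_range.mpr he⟩ hcon
    rw [← Finset.mul_sum, sum_cost w e he L 0, Finset.sum_const, Finset.card_range, smul_eq_mul,
      Nat.zero_add, Nat.zero_add] at h2
    exact lt_irrefl _ h2
  obtain ⟨a, _, ha⟩ := h1
  refine ⟨_, ha, ?_⟩
  have h3 := dec_suf w A hA b a e he L 0 (fun _ => 1) (fun v => by
    rw [totalDegree_one]; exact Nat.zero_le _)
  simpa using h3

end Pool.Agent.H546R2.AB
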