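import Pool.Agent.H546R2.AB.T1
import Pool.Agent.H546R2.AB.T2
import Pool.Agent.H546R2.SM.B8
import Pool.Agent.H546R2.SL.A14

set_option autoImplicit false
set_option linter.unusedSectionVars false

open MvPolynomial Finset

namespace Pool.Agent.H546R2.AB

open Pool.Agent.H546R2.SL (perN aeval_pderiv exists_zeta phi lin eps map_perN)
open Pool.Agent.H546R2.SM

variable {K : Type*} [Field K]

/-- degrees do not grow under affine substitutions -/
lemma totalDegree_aeval_le {σ τ : Type*} (m : σ → MvPolynomial τ K)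
    (hm : ∀ x, (m x).totalDegree ≤ 1) (f : MvPolynomial σ K) :
    (aeval m f).totalDegree ≤ f.totalDegree := by
  classical
  rw [aeval_def, eval₂_eq]
  apply totalDegree_finsetSum_le
  intro d hd
  refine (totalDegree_mul _ _).trans ?_
  have h1 : (algebraMap K (MvPolynomial τ K) (coeff d f)).totalDegree = 0 := totalDegree_C _
  rw [h1, zero_add]
  refine (totalDegree_finsetProd _ _).trans ?_
  calc ∑ x ∈ d.support, (m x ^ d x).totalDegree ≤ ∑ x ∈ d.support, d x := by
        apply Finset.sum_le_sum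
        intro x _
        refine (totalDegree_pow _ _).trans ?_
        calc d x * (m x).totalDegree ≤ d x * 1 := Nat.mul_le_mul_left _ (hm x)
          _ = d x := mul_one _
    _ ≤ f.totalDegree := le_totalDegree hd

lemma totalDegree_pderiv_le {σ : Type*} (v : σ) (f : MvPolynomial σ K) (e : ℕ)
    (hf : f.totalDegree ≤ e + 1) : (pderiv v f).totalDegree ≤ e := by
  classical
  rw [f.as_sum, map_sum]
  apply totalDegree_finsetSum_le
  intro d hd
  rw [pderiv_monomial]
  by_cases h0 : d v = 0
  · rw [h0, Nat.cast_zero, mul_zero, map_zero, totalDegree_zero]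
    exact Nat.zero_le _
  · refine (totalDegree_monomial_le _ _).trans ?_
    have h1 : (d.sum fun _ a => a) ≤ e + 1 := (le_totalDegree hd).trans hf
    have h2 : Finsupp.single v 1 ≤ d := by
      rw [Finsupp.single_le_iff]
      omega
    have h3 : (d - Finsupp.single v 1) + Finsupp.single v 1 = d := tsub_add_cancel_of_le h2
    have h4 : ((d - Finsupp.single v 1) + Finsupp.single v 1).degree =
        (d - Finsupp.single v 1).degree + (Finsupp.single v 1 : σ →₀ ℕ).degree := map_add _ _ _
    rw [h3, Finsupp.degree_single] at h4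
    have h5 : d.degree ≤ e + 1 := h1
    have h6 : ((d - Finsupp.single v 1).sum fun _ a => a) = (d - Finsupp.single v 1).degree := rfl
    change ((d - Finsupp.single v 1).sum fun _ a => a) ≤ e
    rw [h6]
    omega

/-- value at the base point -/
lemma coeff_zero_aeval {σ τ : Type*} (m : σ → MvPolynomial τ K) (f : MvPolynomial σ K) :
    coeff 0 (aeval m f) = eval (fun x => coeff 0 (m x)) f := by
  have h1 : (constantCoeff : MvPolynomial τ K →+* K).comp (aeval (R := K) m).toRingHom =
      eval (fun x => coeff 0 (m x)) := by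
    apply MvPolynomial.ringHom_ext
    · intro r
      change constantCoeff (aeval m (C r)) = _
      rw [aeval_C, eval_C]
      exact constantCoeff_C _ _
    · intro i
      change constantCoeff (aeval m (X i)) = _
      rw [aeval_X, eval_X]
      rfl
  have h2 := congrArg (fun φ : MvPolynomial σ K →+* K => φ f) h1
  exact h2

/-- **the main inequality**: a decomposition of the permanent with a rest of degree `≤ k - 1` -/
theorem dec_ineq (K : Type*) [Field K] [IsAlgClosed K] [CharZero K] {q h k p : ℕ}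
    (hk : 2 ≤ k) (N : ℕ)
    (hN : N = q * (4 * k + h) + h * (2 * k + h + 2) + (3 * k + h + 1) + p) :
    ∃ b : Fin N × Fin N → K, ∀ r : ℕ, Dec b (k - 1) r (perN K N) →
      q * (q * (h * k)) ≤ 2 * r := by
  classical
  obtain ⟨zC, hzC⟩ := exists_zeta K (2 * k + h) (by omega)
  obtain ⟨zU, hzU⟩ := exists_zeta K (k + 1) (by omega)
  obtain ⟨zm, hzm⟩ := exists_zeta K (2 * k) (by omega)
  obtain ⟨zV, hzV⟩ := exists_zeta K (k + h + 1) (by omega)
  obtain ⟨t, ht, hzero⟩ := exists_t (q := q) (h := h) (k := k) (C₀ := 2 * k + h) K hk rfl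
  set FMA := FM K q h k p t zC zU zm zV (Aent K q h k t) with hFMA
  let er : Fin N ≃ FR q h (2 * k) (2 * k + h) k (k + h) p :=
    Fintype.equivOfCardEq (by rw [card_FR, Fintype.card_fin, hN]; ring)
  let ec : Fin N ≃ FC q h (2 * k) (2 * k + h) k (k + h) p :=
    Fintype.equivOfCardEq (by rw [card_FC, Fintype.card_fin, hN]; ring)
  have hCmem : ∀ x : K, C x ∈ restrictTotalDegree (Idx q h k) K 1 := by
    intro x
    rw [mem_restrictTotalDegree, totalDegree_C]
    exact Nat.zero_le _
  have hdeg : ∀ i j, FMA i j ∈ restrictTotalDegree (Idx q h k) K 1 := by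
    intro i j
    rw [hFMA]
    unfold FM
    apply fin_mem (W := (restrictTotalDegree (Idx q h k) K 1 : Set (MvPolynomial (Idx q h k) K)))
    · exact Submodule.zero_mem _
    · exact hCmem 1
    · exact fun _ => hCmem _
    · exact fun _ => hCmem _
    · exact fun _ => hCmem _
    · exact fun _ => hCmem _
    · intro b b' r c
      have := ((zent_homog (K := K) (h := h) b b' r c).C_mul (t ^ ex c r 0)).totalDegree_le
      exact (mem_restrictTotalDegree _ _ _).mpr this
    · exact fun _ _ => hCmem _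
    · exact fun _ _ => hCmem _
    · exact fun _ => hCmem _
  set m : Fin N × Fin N → MvPolynomial (Idx q h k) K := fun x => FMA (er x.1) (ec x.2) with hm
  have hmdeg : ∀ x, (m x).totalDegree ≤ 1 := by
    intro x
    exact (mem_restrictTotalDegree _ _ _).mp (hdeg _ _)
  refine ⟨fun x => coeff 0 (m x), ?_⟩
  rintro r ⟨P, Q, hP, hQ, R, hR, hf⟩
  obtain ⟨e, he⟩ : ∃ e, k - 1 = e + 1 := ⟨k - 2, by omega⟩
  rw [he] at hR
  -- generators
  set gen : Fin r ⊕ Fin r → MvPolynomial (Idx q h k) K :=
    Sum.elim (fun j => aeval m (P j)) (fun j => aeval m (Q j)) with hgen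
  have hgen0 : ∀ j, coeff 0 (gen j) = 0 := by
    rintro (j | j)
    · change coeff 0 (aeval m (P j)) = 0
      rw [coeff_zero_aeval]; exact hP j
    · change coeff 0 (aeval m (Q j)) = 0
      rw [coeff_zero_aeval]; exact hQ j
  have hderiv : ∀ v, aeval m (pderiv v (perN K N)) - aeval m (pderiv v R) ∈
      Ideal.span (Set.range gen) := by
    intro v
    rw [hf, map_add, map_add, add_sub_cancel_right, map_sum, map_sum]
    apply Ideal.sum_mem
    intro j _
    rw [Derivation.leibniz, smul_eq_mul, smul_eq_mul, map_add, map_mul, map_mul]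
    apply Ideal.add_mem
    · exact Ideal.mul_mem_right _ _ (Ideal.subset_span ⟨Sum.inl j, rfl⟩)
    · exact Ideal.mul_mem_right _ _ (Ideal.subset_span ⟨Sum.inr j, rfl⟩)
  have hRdeg : ∀ v, (aeval m (pderiv v R)).totalDegree ≤ e := fun v =>
    (totalDegree_aeval_le m hmdeg _).trans (totalDegree_pderiv_le v R e hR)
  -- the derivatives are multiples of the forms
  have hyS : ∀ v : Fin q × Fin q × Fin (2 * k) × Fin (2 * k + h), ∃ (c : K) (x : Fin N × Fin N),
      Yf K q h k (2 * k + h) t v = C c * aeval m (pderiv x (perN K N)) := by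
    rintro ⟨b₀, b₀', r₀, c₀⟩
    have h1 := aeval_pderiv (K := K) FMA er ec (er.symm (posR b₀' c₀)) (ec.symm (posC b₀ r₀))
    rw [Equiv.apply_symm_apply, Equiv.apply_symm_apply] at h1
    have h2 := per_add FMA (FM K q h k p t zC zU zm zV (fun b b' r c => Aent K q h k t b b' r c +
        if b' = b₀' ∧ c = c₀ then (if b = b₀ ∧ r = r₀ then 1 else 0) else 0))
      (posR b₀' c₀) (posC b₀ r₀) (fun i j => fin_add _ _ _ _ _ _ _ _ _ b₀ b₀' r₀ c₀
        (fun _ _ _ _ => rfl) i j)
    rw [← h2] at h1
    have h3 := FM_diff (p := p) ht (by omega) zC zU zm zV hzC hzU hzm hzV b₀ b₀' r₀ c₀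
    rw [← hFMA, ← h1] at h3
    have hne := cst_ne_zero (K := K) q h (2 * k) (2 * k + h) k (k + h) p
    refine ⟨(cst K q h (2 * k) (2 * k + h) k (k + h) p (-1) (-1) (-1) (-1))⁻¹ * t ^ ex c₀ r₀ 0,
      (er.symm (posR b₀' c₀), ec.symm (posC b₀ r₀)), ?_⟩
    rw [map_mul, mul_assoc]
    rw [h3, ← mul_assoc, ← map_mul, inv_mul_cancel₀ hne, map_one, one_mul]
  choose c x hcx using hyS
  have hcardι : Fintype.card (Idx q h k) = q * (q * (h * k)) := by
    simp [Idx, Fintype.card_prod]
  have hcardτ : Fintype.card (Fin r ⊕ Fin r) = 2 * r := by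
    rw [Fintype.card_sum, Fintype.card_fin]; ring
  rw [← hcardι, ← hcardτ]
  refine strength (fun v => Yf K q h k (2 * k + h) t v) (k - 1) (by omega)
    (fun v => Yf_homog t v) hzero gen hgen0
    (fun v => C (c v) * (aeval m (pderiv (x v) (perN K N)) - aeval m (pderiv (x v) R))) ?_ ?_
  · intro v
    exact Ideal.mul_mem_left _ _ (hderiv _)
  · intro v
    have h1 : C (c v) * (aeval m (pderiv (x v) (perN K N)) - aeval m (pderiv (x v) R)) -
        Yf K q h k (2 * k + h) t v = -(C (c v) * aeval m (pderiv (x v) R)) := by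
      rw [hcx v]; ring
    rw [h1, totalDegree_neg, he]
    refine Nat.lt_succ_of_le ((totalDegree_mul _ _).trans ?_)
    rw [totalDegree_C, zero_add]
    exact hRdeg _

/-- the main inequality for layered programs -/
theorem abp_ineq (K : Type*) [Field K] [IsAlgClosed K] [CharZero K] {q h k p : ℕ}
    (hk : 2 ≤ k) (N : ℕ)
    (hN : N = q * (4 * k + h) + h * (2 * k + h + 2) + (3 * k + h + 1) + p)
    (L : ℕ) (w : ℕ → ℕ)
    (A : (i : ℕ) → Fin (w i) → Fin (w (i + 1)) → MvPolynomial (Fin N × Fin N) K)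
    (hA : ∀ i u v, (A i u v).totalDegree ≤ 1) (hf : ∑ v, suf w A L 0 v = perN K N) :
    (k - 1) * (q * (q * (h * k))) ≤ 2 * ∑ j ∈ Finset.Ico 1 L, w j := by
  obtain ⟨b, hb⟩ := dec_ineq K (q := q) (h := h) (k := k) (p := p) hk N hN
  obtain ⟨r, hr, hdec⟩ := exists_dec w A hA b (k - 1) (by omega) L
  rw [hf] at hdec
  have h1 := hb r hdec
  calc (k - 1) * (q * (q * (h * k))) ≤ (k - 1) * (2 * r) := Nat.mul_le_mul_left _ h1
    _ = 2 * ((k - 1) * r) := by ring
    _ ≤ _ := Nat.mul_le_mul_left _ hr

/-- base change -/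
lemma suf_map {σ : Type*} {K L : Type*} [Field K] [Field L] (φ : K →+* L) (w : ℕ → ℕ)
    (A : (i : ℕ) → Fin (w i) → Fin (w (i + 1)) → MvPolynomial σ K) :
    ∀ (n i : ℕ) (v : Fin (w i)), MvPolynomial.map φ (suf w A n i v) =
      suf w (fun i u v => MvPolynomial.map φ (A i u v)) n i v := by
  intro n
  induction n with
  | zero => intro i v; unfold suf; exact map_one _
  | succ n ih =>
    intro i v
    unfold suf
    rw [map_sum]
    apply Finset.sum_congr rfl
    intro u _
    rw [map_mul, ih]

end Pool.Agent.H546R2.AB
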