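import Pool.Agent.H546R2.AB.T3

set_option autoImplicit false
set_option linter.unusedSectionVars false

open MvPolynomial Finset

namespace Pool.Agent.H546R2.AB

open Pool.Agent.H546R2.SL (perN map_perN)

lemma num_aux (N k T s : ℤ) (hk : 3 ≤ k) (hN : 16 * (k * k) ≤ N)
    (hT : N - 3 * (k * k) - 11 * k ≤ 5 * T) (hs : (k - 1) * (T * T) ≤ 2 * s) :
    N ^ 2 * (4 * k - 11) ≤ 304 * s := by
  have hN0 : 0 ≤ N := by nlinarith
  have ha : (13 * k - 11) * N ≤ k * (13 * N - 176 * k) := by nlinarith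
  have hb : 13 * N - 176 * k ≤ 80 * T := by linarith
  have hc : (13 * k - 11) * N ≤ k * (80 * T) :=
    ha.trans (mul_le_mul_of_nonneg_left hb (by linarith))
  have hd : ((13 * k - 11) * N) ^ 2 ≤ (k * (80 * T)) ^ 2 := by
    apply pow_le_pow_left₀ _ hc
    apply mul_nonneg (by linarith) hN0
  have he : 6400 * k ^ 2 * (4 * k - 11) ≤ 152 * (k - 1) * (13 * k - 11) ^ 2 := by
    nlinarith [sq_nonneg k, mul_nonneg (sq_nonneg k) (by linarith : (0 : ℤ) ≤ k - 3)]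
  have hf : 6400 * k ^ 2 * ((4 * k - 11) * N ^ 2) ≤ 6400 * k ^ 2 * (152 * ((k - 1) * (T * T))) := by
    calc 6400 * k ^ 2 * ((4 * k - 11) * N ^ 2) = (6400 * k ^ 2 * (4 * k - 11)) * N ^ 2 := by ring
      _ ≤ (152 * (k - 1) * (13 * k - 11) ^ 2) * N ^ 2 :=
          mul_le_mul_of_nonneg_right he (sq_nonneg N)
      _ = (152 * (k - 1)) * ((13 * k - 11) * N) ^ 2 := by ring
      _ ≤ (152 * (k - 1)) * (k * (80 * T)) ^ 2 :=
          mul_le_mul_of_nonneg_left hd (by linarith)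
      _ = 6400 * k ^ 2 * (152 * ((k - 1) * (T * T))) := by ring
  have hg : (0 : ℤ) < 6400 * k ^ 2 := by positivity
  have hh := le_of_mul_le_mul_left hf hg
  linarith

/-- the numerical form -/
theorem abp_bound (K : Type*) [Field K] [CharZero K] (N : ℕ) (L : ℕ) (w : ℕ → ℕ)
    (A : (i : ℕ) → Fin (w i) → Fin (w (i + 1)) → MvPolynomial (Fin N × Fin N) K)
    (hA : ∀ i u v, (A i u v).totalDegree ≤ 1) (hf : ∑ v, suf w A L 0 v = perN K N) :
    N ^ 2 * (Nat.sqrt N - 14) ≤ 304 * ∑ j ∈ Finset.Ico 1 L, w j := by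
  by_cases hρ : Nat.sqrt N ≤ 14
  · rw [Nat.sub_eq_zero_of_le hρ, mul_zero]
    exact Nat.zero_le _
  push Not at hρ
  obtain ⟨ρ, hρ'⟩ : ∃ ρ, ρ = Nat.sqrt N := ⟨_, rfl⟩
  rw [← hρ'] at hρ ⊢
  obtain ⟨k, hk⟩ : ∃ k, k = ρ / 4 := ⟨_, rfl⟩
  have hk3 : 3 ≤ k := by omega
  have hρk : 4 * k ≤ ρ := by omega
  have hρk2 : ρ ≤ 4 * k + 3 := by omega
  have hρN : ρ * ρ ≤ N := by rw [hρ']; exact Nat.sqrt_le N
  have hkN : 16 * (k * k) ≤ N := by
    calc 16 * (k * k) = (4 * k) * (4 * k) := by ring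
      _ ≤ ρ * ρ := Nat.mul_le_mul hρk hρk
      _ ≤ N := hρN
  obtain ⟨G, hG⟩ : ∃ G, G = 3 * (k * k) + 6 * k + 1 := ⟨_, rfl⟩
  have hkk : 3 * k ≤ k * k := Nat.mul_le_mul_right k hk3
  have hGN : G ≤ N := by omega
  obtain ⟨q, hq⟩ : ∃ q, q = (N - G) / (5 * k) := ⟨_, rfl⟩
  have hq1 : q * (5 * k) ≤ N - G := by rw [hq]; exact Nat.div_mul_le_self _ _
  have hq2 : N - G < q * (5 * k) + 5 * k := by
    rw [hq]; exact Nat.lt_div_mul_add (by omega)
  have hNform : N = q * (4 * k + k) + k * (2 * k + k + 2) + (3 * k + k + 1) +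
      (N - G - q * (5 * k)) := by
    have h1 : q * (4 * k + k) = q * (5 * k) := by ring
    have h2 : k * (2 * k + k + 2) = 3 * (k * k) + 2 * k := by ring
    rw [h1, h2]
    omega
  have hmain := abp_ineq (AlgebraicClosure K) (q := q) (h := k) (k := k)
    (p := N - G - q * (5 * k)) (by omega) N hNform L w
    (fun i u v => MvPolynomial.map (algebraMap K (AlgebraicClosure K)) (A i u v))
    (fun i u v => (Finset.sup_mono (support_map_subset _ _)).trans (hA i u v)) (by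
      rw [← map_perN (algebraMap K (AlgebraicClosure K)), ← hf, map_sum]
      apply Finset.sum_congr rfl
      intro v _
      rw [suf_map])
  obtain ⟨s, hs⟩ : ∃ s, s = ∑ j ∈ Finset.Ico 1 L, w j := ⟨_, rfl⟩
  rw [← hs] at hmain ⊢
  obtain ⟨T, hT⟩ : ∃ T, T = q * k := ⟨_, rfl⟩
  have h4 : q * (q * (k * k)) = T * T := by rw [hT]; ring
  have h5 : q * (5 * k) = 5 * T := by rw [hT]; ring
  rw [h4] at hmain
  rw [h5] at hq1 hq2
  have hmainZ : ((k : ℤ) - 1) * (T * T) ≤ 2 * s := by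
    have h6 : ((k - 1 : ℕ) : ℤ) = (k : ℤ) - 1 := by
      rw [Nat.cast_sub (by omega)]; norm_num
    rw [← h6]
    exact_mod_cast hmain
  have hTZ : (N : ℤ) - 3 * (k * k) - 11 * k ≤ 5 * T := by
    have h7 : N < 5 * T + 5 * k + G := by omega
    have h8 : N ≤ 5 * T + 3 * (k * k) + 11 * k := by omega
    have h9 : (N : ℤ) ≤ 5 * T + 3 * (k * k) + 11 * k := by exact_mod_cast h8
    linarith
  have hfin := num_aux N k T s (by exact_mod_cast hk3) (by exact_mod_cast hkN) hTZ hmainZ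
  have h10 : (((N ^ 2 * (ρ - 14) : ℕ)) : ℤ) ≤ 304 * s := by
    rw [Nat.cast_mul, Nat.cast_sub (by omega)]
    push_cast
    refine le_trans ?_ hfin
    apply mul_le_mul_of_nonneg_left _ (sq_nonneg _)
    have : (ρ : ℤ) ≤ 4 * k + 3 := by exact_mod_cast hρk2
    linarith
  exact_mod_cast h10

end Pool.Agent.H546R2.AB
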